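import Mathlib
import Pool.Agent.H938R2.JC.Line
import Pool.Agent.W443.J5.Stms

/-! Statements of the parts of the theorem on plane Keller maps whose components have `x`-degrees
with a greatest common divisor at most three. -/

set_option autoImplicit false

open MvPolynomial Pool.Agent.H938R2.JC Pool.Agent.W443.J5

namespace Pool.Agent.W443.J6

universe u

section defs

variable {k : Type u} [Field k]

/-- `d` is the largest weight of a monomial of `f`, for the weights `w0, w1`. -/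
def Top (w0 w1 d : ℤ) (f : MvPolynomial (Fin 2) k) : Prop :=
  (∀ m, coeff m f ≠ 0 → w0 * (m 0 : ℤ) + w1 * (m 1 : ℤ) ≤ d) ∧
    ∃ m, coeff m f ≠ 0 ∧ w0 * (m 0 : ℤ) + w1 * (m 1 : ℤ) = d

/-- `(p, q)` is the lowest one among the monomials of `f` of largest weight. -/
def Low (w0 w1 : ℤ) (p q : ℕ) (f : MvPolynomial (Fin 2) k) : Prop :=
  coeff (e p q) f ≠ 0 ∧ ∀ m, coeff m f ≠ 0 →
    w0 * (m 0 : ℤ) + w1 * (m 1 : ℤ) < w0 * (p : ℤ) + w1 * (q : ℤ) ∨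
    (w0 * (m 0 : ℤ) + w1 * (m 1 : ℤ) = w0 * (p : ℤ) + w1 * (q : ℤ) ∧ q ≤ m 1)

/-- `(p, q)` is the highest one among the monomials of `f` of largest weight. -/
def Upp (w0 w1 : ℤ) (p q : ℕ) (f : MvPolynomial (Fin 2) k) : Prop :=
  coeff (e p q) f ≠ 0 ∧ ∀ m, coeff m f ≠ 0 →
    w0 * (m 0 : ℤ) + w1 * (m 1 : ℤ) < w0 * (p : ℤ) + w1 * (q : ℤ) ∨
    (w0 * (m 0 : ℤ) + w1 * (m 1 : ℤ) = w0 * (p : ℤ) + w1 * (q : ℤ) ∧ m 1 ≤ q)

/-- A pair with nonzero constant Jacobian which does not generate the polynomial ring. -/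
def Bad (f g : MvPolynomial (Fin 2) k) : Prop := (∃ c : k, c ≠ 0 ∧ J f g = C c) ∧ ¬ Good f g

/-- The Newton polygons of `f` and `g` are similar with ratio `a : b`, as far as the directions
with a positive entry are concerned. -/
def Sim (a b : ℕ) (f g : MvPolynomial (Fin 2) k) : Prop :=
  (∀ w0 w1 d : ℤ, (0 < w0 ∨ 0 < w1) → Top w0 w1 d f →
    ∃ n : ℤ, 0 < n ∧ d = a * n ∧ Top w0 w1 (b * n) g) ∧
  (∀ w0 w1 : ℤ, 0 < w0 → ∀ p q : ℕ, Low w0 w1 p q f →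
    ∃ p' q' : ℕ, p = a * p' ∧ q = a * q' ∧ Low w0 w1 (b * p') (b * q') g) ∧
  (∀ w0 w1 : ℤ, 0 < w0 → ∀ p q : ℕ, Upp w0 w1 p q f →
    ∃ p' q' : ℕ, p = a * p' ∧ q = a * q' ∧ Upp w0 w1 (b * p') (b * q') g)

/-- The part of weight `d` of `f` at `x = 1`. -/
noncomputable def dh (w0 w1 d : ℤ) (f : MvPolynomial (Fin 2) k) : Polynomial k :=
  aeval ![1, Polynomial.X] (part w0 w1 d f)

/-- The restriction of `f` to the line `x = 0`. -/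
noncomputable def ev0 (f : MvPolynomial (Fin 2) k) : Polynomial k := aeval ![0, Polynomial.X] f

/-- The twisted bracket. -/
noncomputable def BB (D E : ℤ) (f g : MvPolynomial (Fin 2) k) : MvPolynomial (Fin 2) k :=
  X 0 * J f g - C (D : k) * f * pderiv 1 g + C (E : k) * g * pderiv 1 f

/-- The differential equation. -/
def OD (D w : ℤ) (α φ : Polynomial k) : Prop :=
  Polynomial.C (D : k) * α * Polynomial.derivative φ -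
    Polynomial.C (w : k) * Polynomial.derivative α * φ = α

end defs

/-- Ratio of the top weights. -/
def S_RAT : Prop :=
  ∀ (k : Type u) [Field k] [CharZero k] (f g : MvPolynomial (Fin 2) k), Bad f g →
    ∀ w0 w1 v0 v1 d d' δ δ' : ℤ, (0 < w0 ∨ 0 < w1) → (0 < v0 ∨ 0 < v1) →
    Top w0 w1 d f → Top w0 w1 d' g → Top v0 v1 δ f → Top v0 v1 δ' g → d * δ' = d' * δ

/-- Similarity of the Newton polygons. -/
def S_SIM : Prop :=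
  ∀ (k : Type u) [Field k] [CharZero k] (f g : MvPolynomial (Fin 2) k), Bad f g →
    ∀ a b : ℕ, 1 ≤ a → 1 ≤ b → Nat.Coprime a b → ∀ v0 v1 n : ℤ, (0 < v0 ∨ 0 < v1) →
    Top v0 v1 (a * n) f → Top v0 v1 (b * n) g → Sim a b f g ∧ Sim b a g f

/-- Normalisation of the `x`-degrees. -/
def S_NORM : Prop :=
  ∀ (k : Type u) [Field k] [CharZero k] (f g : MvPolynomial (Fin 2) k) (K : ℕ), Bad f g →
    (Nat.gcd (degreeOf 0 f) (degreeOf 0 g) ≤ K ∨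
      ∀ d, d ∣ degreeOf 0 f → d < degreeOf 0 f → d ≤ K) →
    ∃ (f' g' : MvPolynomial (Fin 2) k) (a b m : ℕ), Bad f' g' ∧ 2 ≤ a ∧ 2 ≤ b ∧
      Nat.Coprime a b ∧ 1 ≤ m ∧ m ≤ K ∧ Top 1 0 (a * m) f' ∧ Top 1 0 (b * m) g'

/-- The chain of approximations. -/
def S_CZ : Prop :=
  ∀ (k : Type u) [Field k] [CharZero k] (f g : MvPolynomial (Fin 2) k) (D E : ℤ) (μ : ℕ) (c : k),
    c ≠ 0 → 0 < D → BB D E f g = C c * X 0 ^ μ → 0 < (ev0 f).natDegree → ev0 g ≠ 0 →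
    ∃ (E' : ℤ) (q h : Polynomial k) (S T : ℕ) (c1 : k), 1 ≤ S ∧ c1 ≠ 0 ∧ h ≠ 0 ∧
      h ^ S = Polynomial.C c1 * (ev0 f) ^ T ∧
      (S : ℤ) * (D + E' - (D + E - μ)) = T * D ∧
      Polynomial.C (E' : k) * Polynomial.derivative (ev0 f) * q -
        Polynomial.C (D : k) * ev0 f * Polynomial.derivative q = h

/-- From the end of the chain to the differential equation. -/
def S_PHI : Prop :=
  ∀ (k : Type u) [Field k] [IsAlgClosed k] [CharZero k] (α q h : Polynomial k) (D E' w : ℤ)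
    (S T : ℕ) (c1 : k), 0 < D → 0 < w → α ≠ 0 → 1 ≤ S → c1 ≠ 0 → h ≠ 0 →
    h ^ S = Polynomial.C c1 * α ^ T → (S : ℤ) * (D + E' - w) = T * D →
    Polynomial.C (E' : k) * Polynomial.derivative α * q -
      Polynomial.C (D : k) * α * Polynomial.derivative q = h →
    ∃ φ : Polynomial k, OD D w α φ

/-- The differential equation for the twisted bracket. -/
def S_PH : Prop :=
  ∀ (k : Type u) [Field k] [IsAlgClosed k] [CharZero k] (f g : MvPolynomial (Fin 2) k)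
    (D E : ℤ) (μ : ℕ) (c : k), c ≠ 0 → 0 < D → 0 < D + E - μ → BB D E f g = C c * X 0 ^ μ →
    0 < (ev0 f).natDegree → ev0 g ≠ 0 → ∃ φ : Polynomial k, OD D (D + E - μ) (ev0 f) φ

/-- The differential equation for the leading forms of a Jacobian pair. -/
def S_DH : Prop :=
  ∀ (k : Type u) [Field k] [IsAlgClosed k] [CharZero k] (f g : MvPolynomial (Fin 2) k) (c : k),
    c ≠ 0 → J f g = C c → ∀ w0 w1 D : ℤ, 0 < w0 → 0 < w0 + w1 → 0 < D → Top w0 w1 D f →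
    0 < (dh w0 w1 D f).natDegree → ∃ φ : Polynomial k, OD D (w0 + w1) (dh w0 w1 D f) φ

/-- The vertical edge. -/
def S_E1 : Prop :=
  ∀ (k : Type u) [Field k] [IsAlgClosed k] [CharZero k] (U φ : Polynomial k) (N : ℕ), 1 ≤ N →
    U ≠ 0 → OD (N : ℤ) 1 U φ → U.natDegree = 0 ∨ (∃ y, N < U.rootMultiplicity y) ∨
    ∃ (y κ : k) (V : ℕ), κ ≠ 0 ∧ 1 ≤ V ∧ V < N ∧
      U = Polynomial.C κ * (Polynomial.X - Polynomial.C y) ^ V

/-- The edges of negative slope. -/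
def S_E2 : Prop :=
  ∀ (k : Type u) [Field k] [CharZero k] (α φ : Polynomial k) (ρ σ V' V0 : ℕ) (U' U0 D : ℤ),
    1 ≤ σ → σ < ρ → 0 < D → V' < V0 → α.coeff V' ≠ 0 → α.coeff V0 ≠ 0 →
    (∀ j, α.coeff j ≠ 0 → V' ≤ j ∧ j ≤ V0 ∧ (ρ : ℤ) ∣ (j : ℤ) - V') →
    D = ρ * U' - σ * V' → D = ρ * U0 - σ * V0 → OD D (ρ - σ) α φ →
    U' ≠ V' ∧ ∃ e : ℕ, 1 ≤ e ∧ (e : ℤ) * D = V0 - U0

/-- The special edge. -/
def S_E3 : Prop :=
  ∀ (k : Type u) [Field k] [CharZero k] (α φ : Polynomial k) (a : ℕ), 1 ≤ a →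
    α.coeff 0 ≠ 0 → α.coeff (6 * a) ≠ 0 → (∀ j, α.coeff j ≠ 0 → j ≤ 6 * a ∧ 3 ∣ j) →
    OD (3 * a) 2 α φ → ∃ κ t : k, κ ≠ 0 ∧ t ≠ 0 ∧
      α = Polynomial.C κ * (Polynomial.X ^ 3 - Polynomial.C t) ^ (2 * a)

/-- Classification, both weights at least two. -/
def S_CL1 : Prop :=
  ∀ (k : Type u) [Field k] [CharZero k] (A : MvPolynomial (Fin 2) k) (φ : Polynomial k)
    (W0 W1 : ℕ) (D : ℤ), 2 ≤ W0 → 2 ≤ W1 → Nat.Coprime W0 W1 → 0 < D → A ≠ 0 →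
    (∀ m, coeff m A ≠ 0 → (W0 : ℤ) * (m 0 : ℤ) + (W1 : ℤ) * (m 1 : ℤ) = D) →
    OD D (W0 + W1) (aeval ![1, Polynomial.X] A) φ →
    ∃ (m : Fin 2 →₀ ℕ) (κ : k), A = monomial m κ

/-- Classification, weights `n, 1`. -/
def S_CL2 : Prop :=
  ∀ (k : Type u) [Field k] [CharZero k] (A : MvPolynomial (Fin 2) k) (φ : Polynomial k)
    (n : ℕ) (D : ℤ), 2 ≤ n → 0 < D → A ≠ 0 →
    (∀ m, coeff m A ≠ 0 → (n : ℤ) * (m 0 : ℤ) + (m 1 : ℤ) = D) →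
    OD D (n + 1) (aeval ![1, Polynomial.X] A) φ →
    ∃ (κ c : k) (i j : ℕ), κ ≠ 0 ∧ A = C κ * X 1 ^ j * (X 0 + C c * X 1 ^ n) ^ i

/-- Classification, weights `1, n`. -/
def S_CL3 : Prop :=
  ∀ (k : Type u) [Field k] [CharZero k] (A : MvPolynomial (Fin 2) k) (φ : Polynomial k)
    (n : ℕ) (D : ℤ), 2 ≤ n → 0 < D → A ≠ 0 →
    (∀ m, coeff m A ≠ 0 → (m 0 : ℤ) + (n : ℤ) * (m 1 : ℤ) = D) →
    OD D (1 + n) (aeval ![1, Polynomial.X] A) φ →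
    ∃ (κ c : k) (i j : ℕ), κ ≠ 0 ∧ A = C κ * X 0 ^ i * (X 1 + C c * X 0 ^ n) ^ j

/-- Classification, weights `1, 1`. -/
def S_CL4 : Prop :=
  ∀ (k : Type u) [Field k] [IsAlgClosed k] [CharZero k] (A : MvPolynomial (Fin 2) k)
    (φ : Polynomial k) (D : ℤ), 0 < D → A ≠ 0 →
    (∀ m, coeff m A ≠ 0 → (m 0 : ℤ) + (m 1 : ℤ) = D) →
    OD D 2 (aeval ![1, Polynomial.X] A) φ →
    ∃ (κ a1 b1 a2 b2 : k) (i j : ℕ), κ ≠ 0 ∧ a1 * b2 - a2 * b1 ≠ 0 ∧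
      A = C κ * (C a1 * X 0 + C b1 * X 1) ^ i * (C a2 * X 0 + C b2 * X 1) ^ j

/-- The first step: the direction `(1, 0)`. -/
def S_ST1 : Prop :=
  ∀ (k : Type u) [Field k] [IsAlgClosed k] [CharZero k] (f g : MvPolynomial (Fin 2) k)
    (a b m : ℕ), 2 ≤ a → 2 ≤ b → Nat.Coprime a b → 1 ≤ m → Bad f g → Sim a b f g →
    Sim b a g f → Top 1 0 (a * m) f →
    (∃ (f' g' : MvPolynomial (Fin 2) k) (v : ℕ), m < v ∧ Bad f' g' ∧ Sim a b f' g' ∧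
      Sim b a g' f' ∧ Low 1 0 (a * m) (a * v) f') ∨
    (∃ (f' g' : MvPolynomial (Fin 2) k) (q : ℕ), q < m ∧ Bad f' g' ∧ Sim a b f' g' ∧
      Sim b a g' f' ∧ Low 1 0 (a * m) (a * q) f' ∧ Upp 1 0 (a * m) (a * q) f')

/-- Removal of an edge by a shift in `x`. -/
def S_PSA : Prop :=
  ∀ (k : Type u) [Field k] [IsAlgClosed k] [CharZero k] (f g : MvPolynomial (Fin 2) k)
    (a b m q n : ℕ) (κ c : k), 2 ≤ a → 2 ≤ b → Nat.Coprime a b → 1 ≤ m → Bad f g → Sim a b f g →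
    Sim b a g f → Low 1 0 (a * m) (a * q) f → Upp 1 0 (a * m) (a * q) f → 1 ≤ n → κ ≠ 0 →
    Top n 1 (n * (a * m) + a * q) f →
    part n 1 (n * (a * m) + a * q) f = C κ * X 1 ^ (a * q) * (X 0 + C c * X 1 ^ n) ^ (a * m) →
    ∃ f' g' : MvPolynomial (Fin 2) k, Bad f' g' ∧ Sim a b f' g' ∧ Sim b a g' f' ∧
      Low 1 0 (a * m) (a * q) f' ∧ Upp 1 0 (a * m) (a * q) f' ∧
      Top n 1 (n * (a * m) + a * q) f' ∧
      part n 1 (n * (a * m) + a * q) f' = C κ * X 1 ^ (a * q) * X 0 ^ (a * m)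

/-- Lowering of the `x`-degree by a homogeneous automorphism. -/
def S_PSB : Prop :=
  ∀ (k : Type u) [Field k] [IsAlgClosed k] [CharZero k] (f g : MvPolynomial (Fin 2) k)
    (a b m n i j : ℕ) (κ : k) (s s' : Fin 2 → MvPolynomial (Fin 2) k), 2 ≤ a → 2 ≤ b →
    Nat.Coprime a b → 1 ≤ m → Bad f g → Sim a b f g → Sim b a g f → 1 ≤ n →
    Top 1 n (a * m) f → (∀ l, aeval s (s' l) = X l) → (∀ l, aeval s' (s l) = X l) →
    (∀ r, coeff r (s 0) ≠ 0 → r 0 + n * r 1 = 1) → (∀ r, coeff r (s 1) ≠ 0 → r 0 + n * r 1 = n) →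
    κ ≠ 0 → 1 ≤ j → aeval s (part 1 n (a * m) f) = C κ * X 0 ^ i * X 1 ^ j →
    ∃ (f' g' : MvPolynomial (Fin 2) k) (m' : ℕ), 1 ≤ m' ∧ m' < m ∧ Bad f' g' ∧ Sim a b f' g' ∧
      Sim b a g' f' ∧ Top 1 0 (a * m') f'

/-- The positive directions. -/
def S_PS : Prop :=
  ∀ (k : Type u) [Field k] [IsAlgClosed k] [CharZero k] (f g : MvPolynomial (Fin 2) k)
    (a b m q : ℕ), 2 ≤ a → 2 ≤ b → Nat.Coprime a b → 1 ≤ m → q < m → Bad f g → Sim a b f g →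
    Sim b a g f → Low 1 0 (a * m) (a * q) f → Upp 1 0 (a * m) (a * q) f →
    ∃ (f' g' : MvPolynomial (Fin 2) k) (m' : ℕ), 1 ≤ m' ∧ m' < m ∧ Bad f' g' ∧ Sim a b f' g' ∧
      Sim b a g' f' ∧ Top 1 0 (a * m') f'

/-- The next edge. -/
def S_ED : Prop :=
  ∀ (k : Type u) [Field k] [IsAlgClosed k] [CharZero k] (f g : MvPolynomial (Fin 2) k)
    (a b p q ρ0 σ0 : ℕ), 2 ≤ a → 2 ≤ b → Nat.Coprime a b → Bad f g → Sim a b f g → 1 ≤ ρ0 →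
    σ0 < ρ0 → p < q → Low (ρ0 : ℤ) (-(σ0 : ℤ)) (a * p) (a * q) f →
    ∃ ρ σ p' q' l h : ℕ, 1 ≤ σ ∧ σ < ρ ∧ Nat.Coprime ρ σ ∧ 1 ≤ l ∧ 1 ≤ h ∧ 1 ≤ p' ∧
      p = p' + l * σ ∧ q = q' + l * ρ ∧ p' ≠ q' ∧
      (h : ℤ) * ((ρ : ℤ) * p - (σ : ℤ) * q) = (q : ℤ) - p ∧
      Low (ρ : ℤ) (-(σ : ℤ)) (a * p') (a * q') f ∧ Upp (ρ : ℤ) (-(σ : ℤ)) (a * p) (a * q) f

/-- The shape of the leading forms at the special edge. -/
def S_SPL : Prop :=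
  ∀ (k : Type u) [Field k] [IsAlgClosed k] [CharZero k] (f g : MvPolynomial (Fin 2) k)
    (a b : ℕ), 2 ≤ a → 2 ≤ b → Nat.Coprime a b → Bad f g → Sim a b f g → Sim b a g f →
    Low 3 (-1) a 0 f → Upp 3 (-1) (3 * a) (6 * a) f →
    ∃ κ κ' t : k, κ ≠ 0 ∧ κ' ≠ 0 ∧ t ≠ 0 ∧ Top 3 (-1) (3 * a) f ∧ Top 3 (-1) (3 * b) g ∧
      part 3 (-1) (3 * a) f = C κ * X 0 ^ a * (X 0 * X 1 ^ 3 - C t) ^ (2 * a) ∧
      part 3 (-1) (3 * b) g = C κ' * X 0 ^ b * (X 0 * X 1 ^ 3 - C t) ^ (2 * b)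

/-- Passage to the local problem. -/
def S_FH : Prop :=
  ∀ (k : Type u) [Field k] [IsAlgClosed k] [CharZero k] (f g : MvPolynomial (Fin 2) k)
    (a b : ℕ) (c κ κ' t : k), 2 ≤ a → 2 ≤ b → c ≠ 0 → J f g = C c → κ ≠ 0 → κ' ≠ 0 → t ≠ 0 →
    Top 3 (-1) (3 * a) f → Top 3 (-1) (3 * b) g →
    part 3 (-1) (3 * a) f = C κ * X 0 ^ a * (X 0 * X 1 ^ 3 - C t) ^ (2 * a) →
    part 3 (-1) (3 * b) g = C κ' * X 0 ^ b * (X 0 * X 1 ^ 3 - C t) ^ (2 * b) →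
    ∃ (F G : MvPolynomial (Fin 2) k) (c' : k) (u v : Polynomial k), c' ≠ 0 ∧
      BB (3 * a) (3 * b) F G = C c' * X 0 ^ (3 * (a + b) - 2) ∧ u.coeff 0 ≠ 0 ∧ v.coeff 0 ≠ 0 ∧
      ev0 F = Polynomial.X ^ (2 * a) * u ∧ ev0 G = Polynomial.X ^ (2 * b) * v

/-- The first slope in the local problem. -/
def S_LB : Prop :=
  ∀ (k : Type u) [Field k] [CharZero k] (F G : MvPolynomial (Fin 2) k) (a b : ℕ) (c : k)
    (u v : Polynomial k), 2 ≤ a → 2 ≤ b → Nat.Coprime a b → c ≠ 0 →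
    BB (3 * a) (3 * b) F G = C c * X 0 ^ (3 * (a + b) - 2) → u.coeff 0 ≠ 0 → v.coeff 0 ≠ 0 →
    ev0 F = Polynomial.X ^ (2 * a) * u → ev0 G = Polynomial.X ^ (2 * b) * v →
    (∃ r κ κ' : k, r ≠ 0 ∧ κ ≠ 0 ∧ κ' ≠ 0 ∧ (∀ m, coeff m F ≠ 0 → 2 * a ≤ 2 * m 0 + m 1) ∧
      (∀ m, coeff m G ≠ 0 → 2 * b ≤ 2 * m 0 + m 1) ∧
      dh 2 1 (2 * a) F = Polynomial.C κ * (Polynomial.X ^ 2 + Polynomial.C r) ^ a ∧
      dh 2 1 (2 * b) G = Polynomial.C κ' * (Polynomial.X ^ 2 + Polynomial.C r) ^ b) ∨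
    (∃ p r κ κ' : k, (p ≠ 0 ∨ r ≠ 0) ∧ κ ≠ 0 ∧ κ' ≠ 0 ∧
      (∀ m, coeff m F ≠ 0 → 2 * a ≤ m 0 + m 1) ∧ (∀ m, coeff m G ≠ 0 → 2 * b ≤ m 0 + m 1) ∧
      dh 1 1 (2 * a) F = Polynomial.C κ *
        (Polynomial.X ^ 2 + Polynomial.C p * Polynomial.X + Polynomial.C r) ^ a ∧
      dh 1 1 (2 * b) G = Polynomial.C κ' *
        (Polynomial.X ^ 2 + Polynomial.C p * Polynomial.X + Polynomial.C r) ^ b)

/-- Blowing up, slope one half. -/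
def S_LT1 : Prop :=
  ∀ (k : Type u) [Field k] [CharZero k] (F G : MvPolynomial (Fin 2) k) (a b : ℕ) (c : k),
    2 ≤ a → 2 ≤ b → c ≠ 0 → BB (3 * a) (3 * b) F G = C c * X 0 ^ (3 * (a + b) - 2) →
    (∀ m, coeff m F ≠ 0 → 2 * a ≤ 2 * m 0 + m 1) → (∀ m, coeff m G ≠ 0 → 2 * b ≤ 2 * m 0 + m 1) →
    ∃ F' G' : MvPolynomial (Fin 2) k,
      BB (4 * a) (4 * b) F' G' = C (2 * c) * X 0 ^ (4 * (a + b) - 3) ∧
      ev0 F' = dh 2 1 (2 * a) F ∧ ev0 G' = dh 2 1 (2 * b) G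

/-- Blowing up, slope one. -/
def S_LT2 : Prop :=
  ∀ (k : Type u) [Field k] [CharZero k] (F G : MvPolynomial (Fin 2) k) (a b : ℕ) (c : k),
    2 ≤ a → 2 ≤ b → c ≠ 0 → BB (3 * a) (3 * b) F G = C c * X 0 ^ (3 * (a + b) - 2) →
    (∀ m, coeff m F ≠ 0 → 2 * a ≤ m 0 + m 1) → (∀ m, coeff m G ≠ 0 → 2 * b ≤ m 0 + m 1) →
    ∃ F' G' : MvPolynomial (Fin 2) k,
      BB a b F' G' = C c * X 0 ^ (a + b - 1) ∧
      ev0 F' = dh 1 1 (2 * a) F ∧ ev0 G' = dh 1 1 (2 * b) G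

/-- Double root, slope one. -/
def S_U1 : Prop :=
  ∀ (k : Type u) [Field k] [IsAlgClosed k] [CharZero k] (a : ℕ) (p r κ : k) (φ : Polynomial k),
    1 ≤ a → κ ≠ 0 → OD a 1 (Polynomial.C κ *
      (Polynomial.X ^ 2 + Polynomial.C p * Polynomial.X + Polynomial.C r) ^ a) φ →
    p ^ 2 = 4 * r

/-- Contradiction, slope one half. -/
def S_U2 : Prop :=
  ∀ (k : Type u) [Field k] [IsAlgClosed k] [CharZero k] (a : ℕ) (r κ : k) (φ : Polynomial k),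
    1 ≤ a → κ ≠ 0 → r ≠ 0 →
    ¬ OD (4 * a) 3 (Polynomial.C κ * (Polynomial.X ^ 2 + Polynomial.C r) ^ a) φ

/-- Translation. -/
def S_LTR : Prop :=
  ∀ (k : Type u) [Field k] [CharZero k] (F G : MvPolynomial (Fin 2) k) (a b : ℕ)
    (c κ κ' p r : k) (u v : Polynomial k), 2 ≤ a → 2 ≤ b → c ≠ 0 →
    BB (3 * a) (3 * b) F G = C c * X 0 ^ (3 * (a + b) - 2) →
    ev0 F = Polynomial.X ^ (2 * a) * u → ev0 G = Polynomial.X ^ (2 * b) * v →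
    (∀ m, coeff m F ≠ 0 → 2 * a ≤ m 0 + m 1) → (∀ m, coeff m G ≠ 0 → 2 * b ≤ m 0 + m 1) →
    p ^ 2 = 4 * r →
    dh 1 1 (2 * a) F = Polynomial.C κ *
      (Polynomial.X ^ 2 + Polynomial.C p * Polynomial.X + Polynomial.C r) ^ a →
    dh 1 1 (2 * b) G = Polynomial.C κ' *
      (Polynomial.X ^ 2 + Polynomial.C p * Polynomial.X + Polynomial.C r) ^ b →
    ∃ F' G' : MvPolynomial (Fin 2) k,
      BB (3 * a) (3 * b) F' G' = C c * X 0 ^ (3 * (a + b) - 2) ∧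
      ev0 F' = Polynomial.X ^ (2 * a) * u ∧ ev0 G' = Polynomial.X ^ (2 * b) * v ∧
      (∀ m, coeff m F' ≠ 0 → 2 * a ≤ m 0 + m 1) ∧ (∀ m, coeff m G' ≠ 0 → 2 * b ≤ m 0 + m 1) ∧
      dh 1 1 (2 * a) F' = Polynomial.C κ * Polynomial.X ^ (2 * a) ∧
      dh 1 1 (2 * b) G' = Polynomial.C κ' * Polynomial.X ^ (2 * b)

end Pool.Agent.W443.J6
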