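import Mathlib
import Pool.Agent.W443.J6.Stms

/-! Further statements: leading monomials with coprime exponents, and the trapezoidal problem. -/

set_option autoImplicit false

open MvPolynomial Pool.Agent.H938R2.JC Pool.Agent.W443.J5

namespace Pool.Agent.W443.J6

universe u

/-- The vertical edge, refined. -/
def S_E1P : Prop :=
  ∀ (k : Type u) [Field k] [IsAlgClosed k] [CharZero k] (U φ : Polynomial k) (N : ℕ), 1 ≤ N →
    OD (N : ℤ) 1 U φ → N < U.natDegree →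
    ∃ y, N < U.rootMultiplicity y ∧ (N ∣ U.natDegree ∨ U.rootMultiplicity y = U.natDegree)

/-- The direction `(1, 0)`, high corner. -/
def S_ST2 : Prop :=
  ∀ (k : Type u) [Field k] [IsAlgClosed k] [CharZero k] (f g : MvPolynomial (Fin 2) k)
    (a b p q : ℕ), 2 ≤ a → 2 ≤ b → Nat.Coprime a b → 1 ≤ p → p < q → Bad f g → Sim a b f g →
    Sim b a g f → Upp 1 0 (a * p) (a * q) f →
    ∃ (f' g' : MvPolynomial (Fin 2) k) (v : ℕ), p < v ∧ (p ∣ q ∨ v = q) ∧ Bad f' g' ∧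
      Sim a b f' g' ∧ Sim b a g' f' ∧ Low 1 0 (a * p) (a * v) f'

/-- The direction `(1, 0)`, low corner. -/
def S_ST3 : Prop :=
  ∀ (k : Type u) [Field k] [IsAlgClosed k] [CharZero k] (f g : MvPolynomial (Fin 2) k)
    (a b p q : ℕ), 2 ≤ a → 2 ≤ b → Nat.Coprime a b → 1 ≤ p → q < p → Bad f g → Sim a b f g →
    Sim b a g f → Upp 1 0 (a * p) (a * q) f →
    ∃ f' g' : MvPolynomial (Fin 2) k, Bad f' g' ∧ Sim a b f' g' ∧ Sim b a g' f' ∧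
      Low 1 0 (a * p) (a * q) f' ∧ Upp 1 0 (a * p) (a * q) f'

/-- The positive directions, with `q ≥ 1`: the `y`-degree can be lowered to `a q`, and then the two
variables are exchanged. -/
def S_PSC : Prop :=
  ∀ (k : Type u) [Field k] [IsAlgClosed k] [CharZero k] (f g : MvPolynomial (Fin 2) k)
    (a b p q : ℕ), 2 ≤ a → 2 ≤ b → Nat.Coprime a b → 1 ≤ q → q < p → Bad f g → Sim a b f g →
    Sim b a g f → Low 1 0 (a * p) (a * q) f → Upp 1 0 (a * p) (a * q) f →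
    ∃ f' g' : MvPolynomial (Fin 2) k, Bad f' g' ∧ Sim a b f' g' ∧ Sim b a g' f' ∧
      Upp 1 0 (a * q) (a * p) f'

/-- The degrees of a pair of generators are not in a ratio `a : b` with `a, b ≥ 2` coprime. -/
def S_NG : Prop :=
  ∀ (k : Type u) [Field k] [CharZero k] (f g : MvPolynomial (Fin 2) k) (a b s : ℕ) (c : k),
    2 ≤ a → 2 ≤ b → Nat.Coprime a b → 1 ≤ s → c ≠ 0 → J f g = C c → Top 1 1 (a * s) f →
    Top 1 1 (b * s) g → ¬ Good f g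

/-- The trapezoidal problem in the coordinates `z = x + 1`, `w = x + y`. -/
def S_TR : Prop :=
  ∀ (a b m n : ℕ), 0 < m → m < n → a ∣ m → a ∣ n → Nat.gcd a b = 1 → 2 ≤ a → a < b →
    ∀ F G : MvPolynomial (Fin 2) ℂ,
      convexHull ℝ (insert ((0:ℝ), (0:ℝ))
        ((fun d : Fin 2 →₀ ℕ => ((d 0 : ℝ), (d 1 : ℝ))) '' (↑F.support : Set (Fin 2 →₀ ℕ))))
        = {p : ℝ × ℝ | 0 ≤ p.2 ∧ p.2 ≤ (n : ℝ) ∧ 0 ≤ p.1 ∧ p.1 ≤ (m : ℝ) + (n : ℝ) - p.2} →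
      convexHull ℝ (insert ((0:ℝ), (0:ℝ))
        ((fun d : Fin 2 →₀ ℕ => ((d 0 : ℝ), (d 1 : ℝ))) ''
          (↑(F - X 0 ^ m * X 1 ^ n).support : Set (Fin 2 →₀ ℕ))))
        ⊂ convexHull ℝ (insert ((0:ℝ), (0:ℝ))
        ((fun d : Fin 2 →₀ ℕ => ((d 0 : ℝ), (d 1 : ℝ))) '' (↑F.support : Set (Fin 2 →₀ ℕ)))) →
      (∀ i : ℕ, i ≤ n →
        ((X 0 + X 1 : MvPolynomial (Fin 2) ℂ) ^ (n - i)) ∣
          homogeneousComponent (m + n - i) F) →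
      convexHull ℝ (insert ((0:ℝ), (0:ℝ))
        ((fun d : Fin 2 →₀ ℕ => ((d 0 : ℝ), (d 1 : ℝ))) '' (↑G.support : Set (Fin 2 →₀ ℕ))))
        = {p : ℝ × ℝ | 0 ≤ p.2 ∧ p.2 ≤ ((b * n / a : ℕ) : ℝ) ∧ 0 ≤ p.1 ∧
            p.1 ≤ ((b * m / a : ℕ) : ℝ) + ((b * n / a : ℕ) : ℝ) - p.2} →
      Top 1 1 (m + n) (aeval ![X 0 - 1, X 1 + 1 - X 0] F : MvPolynomial (Fin 2) ℂ) ∧
      Top 1 1 (b * m / a + b * n / a : ℕ)
        (aeval ![X 0 - 1, X 1 + 1 - X 0] G : MvPolynomial (Fin 2) ℂ) ∧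
      Upp 1 0 m n (aeval ![X 0 - 1, X 1 + 1 - X 0] F : MvPolynomial (Fin 2) ℂ)

end Pool.Agent.W443.J6
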