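import Mathlib
import Pool.Agent.W443.J6.Stms

set_option autoImplicit false

open MvPolynomial Pool.Agent.H938R2.JC Pool.Agent.W443.J5

namespace Pool.Agent.W443.J6

universe u

theorem ph (hCZ : S_CZ.{u}) (hPHI : S_PHI.{u}) : S_PH.{u} := by
  intro k _ _ _ f g D E μ c hc hD hw hB hf hg
  obtain ⟨E', q, h, S, T, c1, hS, hc1, hh, hpow, hrel, hode⟩ :=
    hCZ k f g D E μ c hc hD hB hf hg
  have hα : ev0 f ≠ 0 := by
    intro h0; rw [h0] at hf; simp at hf
  exact hPHI k (ev0 f) q h D E' (D + E - μ) S T c1 hD hw hα hS hc1 hh hpow hrel hode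

/-- The local lemma. -/
theorem ll (hPH : S_PH.{u}) (hLB : S_LB.{u}) (hLT1 : S_LT1.{u}) (hLT2 : S_LT2.{u})
    (hLTR : S_LTR.{u}) (hU1 : S_U1.{u}) (hU2 : S_U2.{u})
    (k : Type u) [Field k] [IsAlgClosed k] [CharZero k] (F G : MvPolynomial (Fin 2) k) (a b : ℕ)
    (c : k) (u v : Polynomial k) (ha : 2 ≤ a) (hb : 2 ≤ b) (hab : Nat.Coprime a b) (hc : c ≠ 0)
    (hB : BB (3 * a) (3 * b) F G = C c * X 0 ^ (3 * (a + b) - 2)) (hu : u.coeff 0 ≠ 0)
    (hv : v.coeff 0 ≠ 0) (hF : ev0 F = Polynomial.X ^ (2 * a) * u)
    (hG : ev0 G = Polynomial.X ^ (2 * b) * v) : False := by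
  have hN : (2 : k) ≠ 0 := two_ne_zero
  have nd1 : ∀ (κ p r : k) (n : ℕ), κ ≠ 0 →
      (Polynomial.C κ * (Polynomial.X ^ 2 + Polynomial.C p * Polynomial.X +
        Polynomial.C r) ^ n).natDegree = n * 2 := by
    intro κ p r n hκ
    rw [Polynomial.natDegree_C_mul hκ, Polynomial.natDegree_pow]
    congr 1
    have : (Polynomial.X ^ 2 + Polynomial.C p * Polynomial.X + Polynomial.C r : Polynomial k) =
      Polynomial.C 1 * Polynomial.X ^ 2 + Polynomial.C p * Polynomial.X + Polynomial.C r := by
        rw [Polynomial.C_1, one_mul]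
    rw [this, Polynomial.natDegree_quadratic one_ne_zero]
  have nz1 : ∀ (κ p r : k) (n : ℕ), κ ≠ 0 →
      (Polynomial.C κ * (Polynomial.X ^ 2 + Polynomial.C p * Polynomial.X +
        Polynomial.C r) ^ n) ≠ 0 := by
    intro κ p r n hκ
    apply mul_ne_zero (by simpa using hκ)
    apply pow_ne_zero
    intro h0
    have := congrArg (fun P => Polynomial.coeff P 2) h0
    simp at this
  rcases hLB k F G a b c u v ha hb hab hc hB hu hv hF hG with
    ⟨r, κ, κ', hr, hκ, hκ', h1, h2, h3, h4⟩ | ⟨p, r, κ, κ', hpr, hκ, hκ', h1, h2, h3, h4⟩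
  · obtain ⟨F', G', hB', hF', hG'⟩ := hLT1 k F G a b c ha hb hc hB h1 h2
    rw [h3] at hF'
    rw [h4] at hG'
    have e1 : (Polynomial.X ^ 2 + Polynomial.C r : Polynomial k) =
      Polynomial.X ^ 2 + Polynomial.C 0 * Polynomial.X + Polynomial.C r := by simp
    have hω : (4 * (a : ℤ) + 4 * (b : ℤ) - ((4 * (a + b) - 3 : ℕ) : ℤ)) = 3 := by
      have : 3 ≤ 4 * (a + b) := by omega
      push_cast [Nat.cast_sub this]; ring
    obtain ⟨φ, hφ⟩ := hPH k F' G' (4 * a) (4 * b) (4 * (a + b) - 3) (2 * c)
      (mul_ne_zero hN hc) (by positivity) (by rw [hω]; norm_num) hB'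
      (by rw [hF', e1, nd1 κ 0 r a hκ]; omega) (by rw [hG', e1]; exact nz1 κ' 0 r b hκ')
    rw [hω, hF'] at hφ
    exact hU2 k a r κ φ (by omega) hκ hr hφ
  · obtain ⟨F', G', hB', hF', hG'⟩ := hLT2 k F G a b c ha hb hc hB h1 h2
    rw [h3] at hF'
    rw [h4] at hG'
    have hω : ((a : ℤ) + (b : ℤ) - ((a + b - 1 : ℕ) : ℤ)) = 1 := by
      have : 1 ≤ a + b := by omega
      push_cast [Nat.cast_sub this]; ring
    obtain ⟨φ, hφ⟩ := hPH k F' G' a b (a + b - 1) c
      hc (by positivity) (by rw [hω]; norm_num) hB'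
      (by rw [hF', nd1 κ p r a hκ]; omega) (by rw [hG']; exact nz1 κ' p r b hκ')
    rw [hω, hF'] at hφ
    have hp : p ^ 2 = 4 * r := hU1 k a p r κ φ (by omega) hκ hφ
    obtain ⟨F2, G2, hB2, hF2, hG2, h5, h6, h7, h8⟩ :=
      hLTR k F G a b c κ κ' p r u v ha hb hc hB hF hG h1 h2 hp h3 h4
    -- the coefficients of `F2` of total degree `2 a`
    have hcoef : ∀ i j : ℕ, i + j = 2 * a → 1 ≤ i → coeff (e i j) F2 = 0 := by
      intro i j hij hi
      have h9 : (dh 1 1 (2 * a) F2).coeff j = coeff (e i j) F2 := by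
        unfold dh part
        rw [map_sum, Polynomial.finsetSum_coeff]
        rw [Finset.sum_eq_single (e i j)]
        · rw [aeval_monomial, Finsupp.prod_fintype _ _ (by simp), Fin.prod_univ_two]
          simp only [Matrix.cons_val_zero, Matrix.cons_val_one, e_zero, e_one]
          rw [Polynomial.algebraMap_eq, one_pow, one_mul, Polynomial.coeff_C_mul,
            Polynomial.coeff_X_pow, if_pos rfl, mul_one]
        · intro m hm hne
          rw [Finset.mem_filter] at hm
          rw [aeval_monomial, Finsupp.prod_fintype _ _ (by simp), Fin.prod_univ_two]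
          simp only [Matrix.cons_val_zero, Matrix.cons_val_one]
          rw [Polynomial.algebraMap_eq, one_pow, one_mul, Polynomial.coeff_C_mul,
            Polynomial.coeff_X_pow]
          rw [if_neg, mul_zero]
          intro hj
          apply hne
          rw [eq_e m, e_inj]
          have := hm.2
          constructor
          · zify; zify at hj hij; omega
          · exact hj.symm
        · intro hm
          rw [Finset.mem_filter, not_and_or] at hm
          rw [aeval_monomial]
          rcases hm with hm | hm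
          · rw [notMem_support_iff.1 hm]; simp
          · exfalso; apply hm; simp only [e_zero, e_one]; zify at hij; omega
      rw [← h9, h7, Polynomial.coeff_C_mul, Polynomial.coeff_X_pow, if_neg (by omega), mul_zero]
    rcases hLB k F2 G2 a b c u v ha hb hab hc hB2 hu hv hF2 hG2 with
      ⟨r', κ2, κ2', hr', hκ2, hκ2', g1, g2, g3, g4⟩ | ⟨p', r', κ2, κ2', hpr', hκ2, hκ2', g1, g2, g3, g4⟩
    · -- the monomial `(1, 2a-2)`
      have h9 : (dh 2 1 (2 * a) F2).coeff (2 * a - 2) = 0 := by
        unfold dh part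
        rw [map_sum, Polynomial.finsetSum_coeff]
        apply Finset.sum_eq_zero
        intro m hm
        rw [Finset.mem_filter] at hm
        rw [aeval_monomial, Finsupp.prod_fintype _ _ (by simp), Fin.prod_univ_two]
        simp only [Matrix.cons_val_zero, Matrix.cons_val_one]
        rw [Polynomial.algebraMap_eq, one_pow, one_mul, Polynomial.coeff_C_mul,
          Polynomial.coeff_X_pow]
        rw [if_neg, mul_zero]
        intro hj
        have h10 := h5 m (mem_support_iff.1 hm.1)
        have h11 := hm.2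
        have h12 : 2 ≤ 2 * a := by omega
        have : ((m 1 : ℕ) : ℤ) = 2 * a - 2 := by rw [← hj]; push_cast [Nat.cast_sub h12]; ring
        zify at h10
        omega
      rw [g3, Polynomial.coeff_C_mul] at h9
      have h10 : ((Polynomial.X ^ 2 + Polynomial.C r') ^ a : Polynomial k).coeff (2 * a - 2) =
          a * r' := by
        have e2 : (Polynomial.X ^ 2 + Polynomial.C r' : Polynomial k) =
            Polynomial.expand k 2 (Polynomial.X + Polynomial.C r') := by simp
        rw [e2, ← map_pow, show 2 * a - 2 = (a - 1) * 2 by omega, Polynomial.coeff_expand_mul (by norm_num)]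
        rw [Polynomial.coeff_X_add_C_pow, show a - (a - 1) = 1 by omega, pow_one]
        rw [Nat.choose_symm_of_eq_add (show a = (a - 1) + 1 by omega), Nat.choose_one_right]
        ring
      rw [h10] at h9
      have h11 : (a : k) ≠ 0 := by
        have : a ≠ 0 := by omega
        exact_mod_cast this
      exact (mul_ne_zero hκ2 (mul_ne_zero h11 hr')) h9
    · rw [h7] at g3
      -- compare `κ X^(2a)` with `κ2 (X^2 + p' X + r')^a`
      have hroot : ∀ y : k, Polynomial.eval y (Polynomial.X ^ 2 + Polynomial.C p' * Polynomial.X +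
          Polynomial.C r') = 0 → y = 0 := by
        intro y hy
        have := congrArg (Polynomial.eval y) g3
        rw [Polynomial.eval_mul, Polynomial.eval_mul, Polynomial.eval_pow, Polynomial.eval_pow, hy,
          Polynomial.eval_C, Polynomial.eval_C, Polynomial.eval_X, zero_pow (by omega : a ≠ 0),
          mul_zero] at this
        rcases mul_eq_zero.1 this with h | h
        · exfalso; exact hκ h
        · exact pow_eq_zero_iff (by omega : 2 * a ≠ 0) |>.1 h
      have hr0 : r' = 0 := by
        have := congrArg (Polynomial.eval 0) g3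
        rw [Polynomial.eval_mul, Polynomial.eval_mul, Polynomial.eval_pow, Polynomial.eval_pow,
          Polynomial.eval_C, Polynomial.eval_C, Polynomial.eval_X, zero_pow (by omega : 2 * a ≠ 0),
          mul_zero] at this
        rcases mul_eq_zero.1 this.symm with h | h
        · exact absurd h hκ2
        · simpa using (pow_eq_zero_iff (by omega : a ≠ 0)).1 h
      have hp0 : p' = 0 := by
        have := hroot (-p') (by simp [hr0]; ring)
        simpa using this
      rcases hpr' with h | h
      · exact h hp0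
      · exact h hr0

/-- The arithmetic of the edges. -/
theorem ar (hED : S_ED.{u}) (k : Type u) [Field k] [IsAlgClosed k] [CharZero k]
    (f g : MvPolynomial (Fin 2) k) (a b : ℕ) (ha : 2 ≤ a) (hb : 2 ≤ b) (hab : Nat.Coprime a b)
    (hbad : Bad f g) (hsim : Sim a b f g) (p q ρ0 σ0 : ℕ) (hp : p ≤ 3) (hρ : 1 ≤ ρ0)
    (hσ : σ0 < ρ0) (hpq : p < q) (hlow : Low (ρ0 : ℤ) (-(σ0 : ℤ)) (a * p) (a * q) f) :
    Low 3 (-1) a 0 f ∧ Upp 3 (-1) (3 * a) (6 * a) f := by
  have c1 : ∀ (p q ρ0 σ0 : ℕ), p ≤ 1 → 1 ≤ ρ0 → σ0 < ρ0 → p < q →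
      Low (ρ0 : ℤ) (-(σ0 : ℤ)) (a * p) (a * q) f → False := by
    intro p q ρ0 σ0 hp hρ hσ hpq hlow
    obtain ⟨ρ, σ, p', q', l, h, h1, h2, h3, h4, h5, h6, h7, h8, h9, h10, h11, h12⟩ :=
      hED k f g a b p q ρ0 σ0 ha hb hab hbad hsim hρ hσ hpq hlow
    have : 1 ≤ l * σ := Nat.mul_pos (by omega) (by omega)
    omega
  have c2 : ∀ (q ρ0 σ0 : ℕ), 1 ≤ ρ0 → σ0 < ρ0 → 2 < q →
      Low (ρ0 : ℤ) (-(σ0 : ℤ)) (a * 2) (a * q) f → False := by
    intro q ρ0 σ0 hρ hσ hpq hlow
    obtain ⟨ρ, σ, p', q', l, h, h1, h2, h3, h4, h5, h6, h7, h8, h9, h10, h11, h12⟩ :=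
      hED k f g a b 2 q ρ0 σ0 ha hb hab hbad hsim hρ hσ hpq hlow
    have hlσ : 1 ≤ l * σ := Nat.mul_pos (by omega) (by omega)
    have hp' : p' = 1 := by omega
    have hlσ' : l * σ = 1 := by omega
    have hl : l = 1 := Nat.eq_one_of_mul_eq_one_right hlσ'
    have hs : σ = 1 := Nat.eq_one_of_mul_eq_one_left hlσ'
    subst hp' hl hs
    rcases Nat.lt_or_ge q' 1 with hq | hq
    · have hq0 : q' = 0 := by omega
      subst hq0
      have hqρ : q = ρ := by omega
      subst hqρ
      push_cast at h10
      nlinarith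
    · have : 1 < q' := by omega
      exact c1 1 q' ρ 1 le_rfl (by omega) (by omega) this h11
  obtain ⟨ρ, σ, p', q', l, h, h1, h2, h3, h4, h5, h6, h7, h8, h9, h10, h11, h12⟩ :=
    hED k f g a b p q ρ0 σ0 ha hb hab hbad hsim hρ hσ hpq hlow
  have hlσ : 1 ≤ l * σ := Nat.mul_pos (by omega) (by omega)
  rcases Nat.lt_or_ge p 3 with hp3 | hp3
  · exfalso
    rcases Nat.lt_or_ge p 2 with hp2 | hp2
    · exact c1 p q ρ0 σ0 (by omega) hρ hσ hpq hlow
    · have : p = 2 := by omega
      subst this
      exact c2 q ρ0 σ0 hρ hσ hpq hlow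
  · have hp3 : p = 3 := by omega
    subst hp3
    -- cases on `p'`
    have hp' : p' = 1 ∨ p' = 2 := by omega
    rcases hp' with hp' | hp'
    · subst hp'
      have hlσ' : l * σ = 2 := by omega
      have hq' : q' = 0 := by
        by_contra hne
        have : 1 < q' := by omega
        exact c1 1 q' ρ σ le_rfl (by omega) (by omega) this h11
      subst hq'
      have hl2 : l ≤ 2 := by
        by_contra hcon
        have : 3 * 1 ≤ l * σ := Nat.mul_le_mul (by omega) h1
        omega
      have hl : l = 1 ∨ l = 2 := by omega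
      rcases hl with hl | hl
      · subst hl
        have hs : σ = 2 := by omega
        subst hs
        exfalso
        have hqρ : q = ρ := by omega
        subst hqρ
        push_cast at h10
        nlinarith
      · subst hl
        have hs : σ = 1 := by omega
        subst hs
        have hqρ : q = 2 * ρ := by omega
        subst hqρ
        have hh : h = 1 := by
          by_contra hne
          have : 2 ≤ h := by omega
          push_cast at h10
          nlinarith
        subst hh
        have hρ3 : ρ = 3 := by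
          push_cast at h10
          omega
        subst hρ3
        constructor
        · simpa using h11
        · have := h12
          rw [mul_comm a 3, mul_comm a (2 * 3)] at this
          simpa using this
    · subst hp'
      exfalso
      have hlσ' : l * σ = 1 := by omega
      have hl : l = 1 := Nat.eq_one_of_mul_eq_one_right hlσ'
      have hs : σ = 1 := Nat.eq_one_of_mul_eq_one_left hlσ'
      subst hl hs
      rcases Nat.lt_or_ge q' 3 with hq | hq
      · have : q' = 0 ∨ q' = 1 := by omega
        rcases this with h0 | h0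
        · subst h0
          have hqρ : q = ρ := by omega
          subst hqρ
          push_cast at h10
          nlinarith
        · subst h0
          have hqρ : q = 1 + ρ := by omega
          subst hqρ
          push_cast at h10
          nlinarith
      · exact c2 q' ρ 1 (by omega) (by omega) (by omega) h11

end Pool.Agent.W443.J6
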