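import Mathlib
import Pool.Agent.W443.J6.Fin
import Pool.Agent.H928R2.ThreeMain

set_option autoImplicit false

open MvPolynomial Pool.Agent.H938R2.JC Pool.Agent.W443.J5

namespace Pool.Agent.W443.J6

universe u

/-- No bad pair with similar Newton polygons of `x`-size at most three. -/
theorem nobad (hST1 : S_ST1.{u}) (hPS : S_PS.{u}) (hED : S_ED.{u}) (hSPL : S_SPL.{u})
    (hFH : S_FH.{u}) (hPH : S_PH.{u}) (hLB : S_LB.{u}) (hLT1 : S_LT1.{u}) (hLT2 : S_LT2.{u})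
    (hLTR : S_LTR.{u}) (hU1 : S_U1.{u}) (hU2 : S_U2.{u})
    (k : Type u) [Field k] [IsAlgClosed k] [CharZero k] (a b : ℕ) (ha : 2 ≤ a) (hb : 2 ≤ b)
    (hab : Nat.Coprime a b) : ∀ m : ℕ, 1 ≤ m → m ≤ 3 → ∀ f g : MvPolynomial (Fin 2) k, Bad f g →
    Sim a b f g → Sim b a g f → Top 1 0 (a * m) f → False := by
  intro m
  induction m using Nat.strong_induction_on with
  | _ m ih =>
    intro hm hm3 f g hbad hs hs' htop
    rcases hST1 k f g a b m ha hb hab hm hbad hs hs' htop with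
      ⟨f', g', v, hv, hbad', hs1, hs2, hlow⟩ | ⟨f', g', q, hq, hbad', hs1, hs2, hlow, hupp⟩
    · have h0 : Low ((1 : ℕ) : ℤ) (-((0 : ℕ) : ℤ)) (a * m) (a * v) f' := by simpa using hlow
      obtain ⟨h1, h2⟩ := ar hED k f' g' a b ha hb hab hbad' hs1 m v 1 0 hm3 le_rfl (by norm_num)
        hv h0
      obtain ⟨κ, κ', t, hκ, hκ', ht, ht1, ht2, hp1, hp2⟩ :=
        hSPL k f' g' a b ha hb hab hbad' hs1 hs2 h1 h2
      obtain ⟨c, hc, hJ⟩ := hbad'.1
      obtain ⟨F, G, c', u, v', hc', hB, hu, hv', hF, hG⟩ :=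
        hFH k f' g' a b c κ κ' t ha hb hc hJ hκ hκ' ht ht1 ht2 hp1 hp2
      exact ll hPH hLB hLT1 hLT2 hLTR hU1 hU2 k F G a b c' u v' ha hb hab hc' hB hu hv' hF hG
    · obtain ⟨f2, g2, m', hm', hm'', hbad2, hs3, hs4, htop2⟩ :=
        hPS k f' g' a b m q ha hb hab hm hq hbad' hs1 hs2 hlow hupp
      exact ih m' hm'' hm' (by omega) f2 g2 hbad2 hs3 hs4 htop2

/-- The algebraically closed case. -/
theorem closed (hSIM : S_SIM.{u}) (hNORM : S_NORM.{u}) (hST1 : S_ST1.{u}) (hPS : S_PS.{u})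
    (hED : S_ED.{u}) (hSPL : S_SPL.{u})
    (hFH : S_FH.{u}) (hPH : S_PH.{u}) (hLB : S_LB.{u}) (hLT1 : S_LT1.{u}) (hLT2 : S_LT2.{u})
    (hLTR : S_LTR.{u}) (hU1 : S_U1.{u}) (hU2 : S_U2.{u})
    (k : Type u) [Field k] [IsAlgClosed k] [CharZero k] (f g : MvPolynomial (Fin 2) k) (c : k)
    (hc : c ≠ 0) (hJ : J f g = C c)
    (h : Nat.gcd (degreeOf 0 f) (degreeOf 0 g) ≤ 3 ∨
      ∀ d, d ∣ degreeOf 0 f → d < degreeOf 0 f → d ≤ 3) : Good f g := by
  by_contra hG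
  have hbad : Bad f g := ⟨⟨c, hc, hJ⟩, hG⟩
  obtain ⟨f', g', a, b, m, hbad', ha, hb, hab, hm, hm3, h1, h2⟩ := hNORM k f g 3 hbad h
  obtain ⟨hs, hs'⟩ := hSIM k f' g' hbad' a b (by omega) (by omega) hab 1 0 m (Or.inl one_pos) h1 h2
  exact nobad hST1 hPS hED hSPL hFH hPH hLB hLT1 hLT2 hLTR hU1 hU2 k a b ha hb hab m hm hm3 f' g'
    hbad' hs hs' h1

/-- The general case. -/
theorem general (hSIM : S_SIM.{u}) (hNORM : S_NORM.{u}) (hST1 : S_ST1.{u}) (hPS : S_PS.{u})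
    (hED : S_ED.{u}) (hSPL : S_SPL.{u})
    (hFH : S_FH.{u}) (hPH : S_PH.{u}) (hLB : S_LB.{u}) (hLT1 : S_LT1.{u}) (hLT2 : S_LT2.{u})
    (hLTR : S_LTR.{u}) (hU1 : S_U1.{u}) (hU2 : S_U2.{u})
    (k : Type u) [Field k] [CharZero k] (f g : MvPolynomial (Fin 2) k) (c : k)
    (hc : c ≠ 0) (hJ : J f g = C c)
    (h : Nat.gcd (degreeOf 0 f) (degreeOf 0 g) ≤ 3 ∨
      ∀ d, d ∣ degreeOf 0 f → d < degreeOf 0 f → d ≤ 3) : Good f g := by
  apply Pool.Agent.H928R2.Three.good_descent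
  have hinj : Function.Injective (algebraMap k (AlgebraicClosure k)) :=
    (algebraMap k (AlgebraicClosure k)).injective
  have e1 : ∀ P : MvPolynomial (Fin 2) k, Pool.Agent.H922R2.mE k (AlgebraicClosure k) (Fin 2) P =
      MvPolynomial.map (algebraMap k (AlgebraicClosure k)) P := by
    intro P
    rfl
  have hd : ∀ P : MvPolynomial (Fin 2) k,
      degreeOf 0 (MvPolynomial.map (algebraMap k (AlgebraicClosure k)) P) = degreeOf 0 P := by
    intro P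
    rw [degreeOf_eq_sup, degreeOf_eq_sup, support_map_of_injective P hinj]
  rw [e1, e1]
  refine closed hSIM hNORM hST1 hPS hED hSPL hFH hPH hLB hLT1 hLT2 hLTR hU1 hU2
    (AlgebraicClosure k) _ _ (algebraMap k (AlgebraicClosure k) c) ?_ ?_ ?_
  · exact (map_ne_zero _).2 hc
  · have : J (MvPolynomial.map (algebraMap k (AlgebraicClosure k)) f)
        (MvPolynomial.map (algebraMap k (AlgebraicClosure k)) g) =
        MvPolynomial.map (algebraMap k (AlgebraicClosure k)) (J f g) := by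
      unfold J
      simp only [map_sub, map_mul, pderiv_map]
    rw [this, hJ, map_C]
  · rw [hd, hd]; exact h

end Pool.Agent.W443.J6
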