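import Mathlib
import Pool.Agent.W443.J6.Fin2
import Pool.Agent.W240.J6.Rat
import Pool.Agent.W216.J6.Sim
import Pool.Agent.W216.J6.Norm
import Pool.Agent.W215.J5.P1
import Pool.Agent.W108.J6.CZ
import Pool.Agent.W975.J6.Phi
import Pool.Agent.W696.J6.DH
import Pool.Agent.W319.J6.E1
import Pool.Agent.W327.J6.E2
import Pool.Agent.W67.J6.CL12
import Pool.Agent.W605.J6.CL34
import Pool.Agent.W305.J6.St1
import Pool.Agent.W410.J6.PSA
import Pool.Agent.W864.J6.Psb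
import Pool.Agent.W22.J6.ED
import Pool.Agent.W976.J6.Spl
import Pool.Agent.W45.J6.FH
import Pool.Agent.W119.J6.LT
import Pool.Agent.W103.J6.U12
import Pool.Agent.W583.J6.Ps
import Pool.Agent.W372.J6.LB

set_option autoImplicit false

open MvPolynomial Pool.Agent.H938R2.JC Pool.Agent.W443.J5

namespace Pool.Agent.W443.J6.Asm

universe u

theorem sim : S_SIM.{u} := Pool.Agent.W216.J6.sim Pool.Agent.W240.J6.rat
theorem norm_ : S_NORM.{u} := Pool.Agent.W216.J6.norm_ Pool.Agent.W215.J5.p1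
theorem ph : S_PH.{u} := Pool.Agent.W443.J6.ph Pool.Agent.W108.J6.cz Pool.Agent.W975.J6.main
theorem dh_ : S_DH.{u} := Pool.Agent.W696.J6.S_DH_of_S_PH ph
theorem st1 : S_ST1.{u} := Pool.Agent.W305.J6.st1 sim dh_ Pool.Agent.W319.J6.t_E1
theorem ps : S_PS.{u} := Pool.Agent.W443.J6.ps sim dh_ Pool.Agent.W67.J6.cl1 Pool.Agent.W67.J6.cl2
  Pool.Agent.W605.J6.cl3 Pool.Agent.W605.J6.cl4 (Pool.Agent.W410.J6.PSA.main sim)
  (Pool.Agent.W864.J6.psb sim)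
theorem ed : S_ED.{u} := Pool.Agent.W22.J6ED.main dh_ Pool.Agent.W327.J6.E2
theorem spl : S_SPL.{u} := Pool.Agent.W976.J6.spl dh_ Pool.Agent.W327.J6.E3
theorem fh : S_FH.{u} := Pool.Agent.W45.J6.fh
theorem lb : S_LB.{u} := Pool.Agent.W372.J6.lb

theorem nb (k : Type u) [Field k] [IsAlgClosed k] [CharZero k] (a b : ℕ) (ha : 2 ≤ a) (hb : 2 ≤ b)
    (hab : Nat.Coprime a b) (m : ℕ) (hm : 1 ≤ m) (hm3 : m ≤ 3) (f g : MvPolynomial (Fin 2) k)
    (hbad : Bad f g) (hs : Sim a b f g) (hs' : Sim b a g f) (ht : Top 1 0 (a * m) f) : False :=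
  nobad st1 ps ed spl fh ph lb Pool.Agent.W119.J6.lt1 Pool.Agent.W119.J6.lt2
    Pool.Agent.W119.J6.ltr Pool.Agent.W103.J6.u1 Pool.Agent.W103.J6.u2 k a b ha hb hab m hm hm3
    f g hbad hs hs' ht

theorem main (k : Type u) [Field k] [CharZero k] (f g : MvPolynomial (Fin 2) k) (c : k)
    (hc : c ≠ 0) (hJ : J f g = C c)
    (h : Nat.gcd (degreeOf 0 f) (degreeOf 0 g) ≤ 3 ∨
      ∀ d, d ∣ degreeOf 0 f → d < degreeOf 0 f → d ≤ 3) : Good f g :=
  general sim norm_ st1 ps ed spl fh ph lb Pool.Agent.W119.J6.lt1 Pool.Agent.W119.J6.lt2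
    Pool.Agent.W119.J6.ltr Pool.Agent.W103.J6.u1 Pool.Agent.W103.J6.u2 k f g c hc hJ h

end Pool.Agent.W443.J6.Asm
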