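import Mathlib
import Pool.Agent.W443.J6.Stms

set_option autoImplicit false

open MvPolynomial Pool.Agent.H938R2.JC Pool.Agent.W443.J5

namespace Pool.Agent.W443.J6

universe u

theorem cop_arith (p q p' q' ρ σ l h : ℕ) (h1 : 1 ≤ σ) (h2 : σ < ρ) (h4 : 1 ≤ l)
    (h6 : 1 ≤ p') (h7 : p = p' + l * σ) (h8 : q = q' + l * ρ) (h9 : p' ≠ q')
    (h10 : (h : ℤ) * ((ρ : ℤ) * p - (σ : ℤ) * q) = (q : ℤ) - p) (hpq : p < q)
    (hA : p ≤ h * σ + 1) :
    p' < q' ∧ (0 : ℤ) < (ρ : ℤ) * p' - σ * q' ∧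
      ((p' : ℤ) - 1) * ((ρ : ℤ) * p' - σ * q') ≤ ((q' : ℤ) - p') * σ := by
  obtain ⟨d, hd⟩ : ∃ d : ℤ, d = (ρ : ℤ) * p - σ * q := ⟨_, rfl⟩
  have hd' : (ρ : ℤ) * p' - σ * q' = d := by
    rw [hd, h7, h8]; push_cast; ring
  rw [← hd] at h10
  have hq : (0 : ℤ) < (q : ℤ) - p := by zify at hpq; linarith
  have hh0 : (0 : ℤ) ≤ h := Int.natCast_nonneg h
  have hdpos : 0 < d := by
    by_contra hcon
    have : (h : ℤ) * d ≤ 0 := mul_nonpos_of_nonneg_of_nonpos hh0 (by linarith)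
    linarith
  have hρσ : (0 : ℤ) < (ρ : ℤ) - σ := by zify at h2; linarith
  have key1 : (p : ℤ) * (1 + h * ρ) = q * (1 + h * σ) := by
    rw [hd] at h10; linarith [h10, mul_comm (p : ℤ) q]
  have key2 : (1 + (h : ℤ) * σ) * ((q' : ℤ) - p') = (ρ - σ) * (h * p' - l) := by
    have e1 : (p : ℤ) = p' + l * σ := by rw [h7]; push_cast; ring
    have e2 : (q : ℤ) = q' + l * ρ := by rw [h8]; push_cast; ring
    rw [e1, e2] at key1
    linarith [key1, mul_comm (h : ℤ) p']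
  have key3 : d * (1 + (h : ℤ) * σ) = p * (ρ - σ) := by
    rw [hd]; linarith [key1, congrArg (fun z => (σ : ℤ) * z) key1]
  have hp'1 : (1 : ℤ) ≤ p' := by exact_mod_cast h6
  have hσ1 : (1 : ℤ) ≤ σ := by exact_mod_cast h1
  have hl1 : (1 : ℤ) ≤ l := by exact_mod_cast h4
  have hA' : (p : ℤ) ≤ h * σ + 1 := by exact_mod_cast hA
  have e1 : (p : ℤ) = p' + l * σ := by rw [h7]; push_cast; ring
  have hhl : (l : ℤ) ≤ h := by
    have : (l : ℤ) * σ ≤ h * σ := by rw [e1] at hA'; linarith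
    exact le_of_mul_le_mul_right this (by linarith)
  have hge : 0 ≤ (h : ℤ) * p' - l := by nlinarith
  have hpos : (0 : ℤ) < 1 + (h : ℤ) * σ := by positivity
  have hne : (h : ℤ) * p' - l ≠ 0 := by
    intro h0
    rw [h0, mul_zero] at key2
    rcases mul_eq_zero.1 key2 with h | h
    · linarith
    · apply h9
      have : (q' : ℤ) = p' := by linarith
      exact_mod_cast this.symm
  have hgt : 0 < (h : ℤ) * p' - l := lt_of_le_of_ne hge (Ne.symm hne)
  have hlt : (0 : ℤ) < (q' : ℤ) - p' := by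
    by_contra hcon
    have : (1 + (h : ℤ) * σ) * ((q' : ℤ) - p') ≤ 0 :=
      mul_nonpos_of_nonneg_of_nonpos hpos.le (by linarith)
    have h5 : 0 < ((ρ : ℤ) - σ) * (h * p' - l) := mul_pos hρσ hgt
    linarith
  refine ⟨by zify; linarith, by rw [hd']; exact hdpos, ?_⟩
  rw [hd']
  have hfin : (1 + (h : ℤ) * σ) * (((p' : ℤ) - 1) * d) ≤
      (1 + (h : ℤ) * σ) * (((q' : ℤ) - p') * σ) := by
    have e3 : (1 + (h : ℤ) * σ) * (((p' : ℤ) - 1) * d) = ((p' : ℤ) - 1) * (p * (ρ - σ)) := by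
      rw [← key3]; ring
    have e4 : (1 + (h : ℤ) * σ) * (((q' : ℤ) - p') * σ) = (ρ - σ) * (h * p' - l) * σ := by
      rw [← key2]; ring
    rw [e3, e4]
    have e5 : ((p' : ℤ) - 1) * p ≤ (h * p' - l) * σ := by
      rw [e1]
      have : (p' : ℤ) + l * σ - 1 ≤ h * σ := by rw [e1] at hA'; linarith
      nlinarith
    nlinarith
  exact le_of_mul_le_mul_left hfin hpos

/-- Descent along the corners: no corner above the diagonal with large slope. -/
theorem desc (hED : S_ED.{u}) (k : Type u) [Field k] [IsAlgClosed k] [CharZero k]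
    (f g : MvPolynomial (Fin 2) k) (a b : ℕ) (ha : 2 ≤ a) (hb : 2 ≤ b) (hab : Nat.Coprime a b)
    (hbad : Bad f g) (hsim : Sim a b f g) : ∀ p q ρ0 σ0 : ℕ, 1 ≤ ρ0 → σ0 < ρ0 → p < q →
    Low (ρ0 : ℤ) (-(σ0 : ℤ)) (a * p) (a * q) f →
    (0 : ℤ) < (ρ0 : ℤ) * p - σ0 * q →
    ((p : ℤ) - 1) * ((ρ0 : ℤ) * p - σ0 * q) ≤ ((q : ℤ) - p) * σ0 → False := by
  intro p
  induction p using Nat.strong_induction_on with
  | _ p ih =>
    intro q ρ0 σ0 hρ hσ hpq hlow hd0 hK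
    obtain ⟨ρ, σ, p', q', l, h, h1, h2, h3, h4, h5, h6, h7, h8, h9, h10, h11, h12⟩ :=
      hED k f g a b p q ρ0 σ0 ha hb hab hbad hsim hρ hσ hpq hlow
    have hlσ : 1 ≤ l * σ := Nat.mul_pos (by omega) (by omega)
    have hlρ : 1 ≤ l * ρ := Nat.mul_pos (by omega) (by omega)
    have hap : (0 : ℤ) < a := by exact_mod_cast (by omega : 0 < a)
    -- the turn
    have hturn : (σ0 : ℤ) * ρ < σ * ρ0 := by
      rcases hlow.2 _ h11.1 with h13 | h13
      · simp only [e_zero, e_one] at h13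
        have e1 : (p : ℤ) = p' + l * σ := by rw [h7]; push_cast; ring
        have e2 : (q : ℤ) = q' + l * ρ := by rw [h8]; push_cast; ring
        push_cast at h13
        rw [e1, e2] at h13
        have : (a : ℤ) * l * (σ0 * ρ) < a * l * (σ * ρ0) := by linarith
        exact lt_of_mul_lt_mul_left this (by positivity)
      · exfalso
        have h14 := h13.2
        simp only [e_one] at h14
        have : q ≤ q' := Nat.le_of_mul_le_mul_left h14 (by omega)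
        omega
    have hA : p ≤ h * σ + 1 := by
      obtain ⟨d, hd⟩ : ∃ d : ℤ, d = (ρ : ℤ) * p - σ * q := ⟨_, rfl⟩
      obtain ⟨d0, hd0'⟩ : ∃ d0 : ℤ, d0 = (ρ0 : ℤ) * p - σ0 * q := ⟨_, rfl⟩
      rw [← hd] at h10
      rw [← hd0'] at hd0 hK
      have hq : (0 : ℤ) < (q : ℤ) - p := by zify at hpq; linarith
      have hh0 : (0 : ℤ) ≤ h := Int.natCast_nonneg h
      have hdpos : 0 < d := by
        by_contra hcon
        have : (h : ℤ) * d ≤ 0 := mul_nonpos_of_nonneg_of_nonpos hh0 (by linarith)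
        linarith
      have h15 : (σ0 : ℤ) * d ≤ σ * d0 := by
        have : (σ : ℤ) * d0 - σ0 * d = p * (σ * ρ0 - σ0 * ρ) := by rw [hd, hd0']; ring
        have h16 : (0 : ℤ) ≤ p * (σ * ρ0 - σ0 * ρ) := mul_nonneg (Int.natCast_nonneg p) (by linarith)
        linarith
      have h17 : d0 * (((p : ℤ) - 1) * d) ≤ d0 * ((h * d) * σ) := by
        calc d0 * (((p : ℤ) - 1) * d) = (((p : ℤ) - 1) * d0) * d := by ring
          _ ≤ (((q : ℤ) - p) * σ0) * d := mul_le_mul_of_nonneg_right hK hdpos.le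
          _ = ((q : ℤ) - p) * (σ0 * d) := by ring
          _ ≤ ((q : ℤ) - p) * (σ * d0) := mul_le_mul_of_nonneg_left h15 hq.le
          _ = d0 * ((h * d) * σ) := by rw [h10]; ring
      have h18 : ((p : ℤ) - 1) * d ≤ (h * σ) * d := by
        have := le_of_mul_le_mul_left h17 hd0
        linarith
      have h19 := le_of_mul_le_mul_right h18 hdpos
      zify; linarith
    obtain ⟨g1, g2, g3⟩ := cop_arith p q p' q' ρ σ l h h1 h2 h4 h6 h7 h8 h9 h10 hpq hA
    exact ih p' (by omega) q' ρ σ (by omega) h2 g1 h11 g2 g3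

/-- No corner above the diagonal with coprime coordinates. -/
theorem cop (hED : S_ED.{u}) (k : Type u) [Field k] [IsAlgClosed k] [CharZero k]
    (f g : MvPolynomial (Fin 2) k) (a b : ℕ) (ha : 2 ≤ a) (hb : 2 ≤ b) (hab : Nat.Coprime a b)
    (hbad : Bad f g) (hsim : Sim a b f g) (p q ρ0 σ0 : ℕ) (hρ : 1 ≤ ρ0) (hσ : σ0 < ρ0)
    (hpq : p < q) (hcop : Nat.Coprime p q)
    (hlow : Low (ρ0 : ℤ) (-(σ0 : ℤ)) (a * p) (a * q) f) : False := by
  obtain ⟨ρ, σ, p', q', l, h, h1, h2, h3, h4, h5, h6, h7, h8, h9, h10, h11, h12⟩ :=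
    hED k f g a b p q ρ0 σ0 ha hb hab hbad hsim hρ hσ hpq hlow
  have hlσ : 1 ≤ l * σ := Nat.mul_pos (by omega) (by omega)
  have hA : p ≤ h * σ + 1 := by
    have key : q * (h * σ + 1) = p * (h * ρ + 1) := by
      zify; linarith [h10, mul_comm (p : ℤ) q]
    have : p ∣ q * (h * σ + 1) := ⟨_, key⟩
    exact Nat.le_of_dvd (by omega) (hcop.dvd_of_dvd_mul_left this)
  obtain ⟨g1, g2, g3⟩ := cop_arith p q p' q' ρ σ l h h1 h2 h4 h6 h7 h8 h9 h10 hpq hA
  exact desc hED k f g a b ha hb hab hbad hsim p' q' ρ σ (by omega) h2 g1 h11 g2 g3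

end Pool.Agent.W443.J6
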