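import Mathlib
import Pool.Agent.W443.J6.Stms2
import Pool.Agent.W443.J6.Fin2
import Pool.Agent.W443.J6.Cop

set_option autoImplicit false

open MvPolynomial Pool.Agent.H938R2.JC Pool.Agent.W443.J5

namespace Pool.Agent.W443.J6

universe u

/-- No bad pair with similar Newton polygons and a primitive corner. -/
theorem noprim (hNB : ∀ (k : Type u) [Field k] [IsAlgClosed k] [CharZero k] (a b : ℕ), 2 ≤ a →
      2 ≤ b → Nat.Coprime a b → ∀ m : ℕ, 1 ≤ m → m ≤ 3 → ∀ f g : MvPolynomial (Fin 2) k,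
      Bad f g → Sim a b f g → Sim b a g f → Top 1 0 (a * m) f → False)
    (hED : S_ED.{u}) (hST2 : S_ST2.{u}) (hST3 : S_ST3.{u}) (hPSC : S_PSC.{u})
    (k : Type u) [Field k] [IsAlgClosed k] [CharZero k] (a b : ℕ) (ha : 2 ≤ a) (hb : 2 ≤ b)
    (hab : Nat.Coprime a b) (p q : ℕ) (hp : 1 ≤ p) (hpq : Nat.Coprime p q)
    (f g : MvPolynomial (Fin 2) k) (hbad : Bad f g) (hs : Sim a b f g) (hs' : Sim b a g f)
    (hupp : Upp 1 0 (a * p) (a * q) f) : False := by
  have hi : ∀ (p q : ℕ) (f g : MvPolynomial (Fin 2) k), 1 ≤ p → p < q → Nat.Coprime p q →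
      Bad f g → Sim a b f g → Sim b a g f → Upp 1 0 (a * p) (a * q) f → False := by
    intro p q f g hp hlt hpq hbad hs hs' hupp
    obtain ⟨f', g', v, hv, hdiv, hbad', hs1, hs2, hlow⟩ :=
      hST2 k f g a b p q ha hb hab hp hlt hbad hs hs' hupp
    have hpv : Nat.Coprime p v := by
      rcases hdiv with h | h
      · have : p = 1 := by
          have h1 : p ∣ Nat.gcd p q := Nat.dvd_gcd dvd_rfl h
          rw [hpq] at h1
          exact Nat.dvd_one.1 h1
        rw [this]; exact Nat.coprime_one_left v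
      · rw [h]; exact hpq
    have h0 : Low ((1 : ℕ) : ℤ) (-((0 : ℕ) : ℤ)) (a * p) (a * v) f' := by simpa using hlow
    exact cop hED k f' g' a b ha hb hab hbad' hs1 p v 1 0 le_rfl (by norm_num) hv hpv h0
  rcases lt_trichotomy p q with h | h | h
  · exact hi p q f g hp h hpq hbad hs hs' hupp
  · subst h
    have hp1 : p = 1 := by
      have : Nat.gcd p p = 1 := hpq
      rwa [Nat.gcd_self] at this
    subst hp1
    refine hNB k a b ha hb hab 1 le_rfl (by norm_num) f g hbad hs hs' ?_
    refine ⟨fun m hm => ?_, _, hupp.1, by simp⟩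
    have := hupp.2 m hm
    rcases this with h | h
    · push_cast at h ⊢; linarith
    · push_cast at h ⊢; linarith [h.1]
  · rcases Nat.eq_zero_or_pos q with hq | hq
    · subst hq
      have hp1 : p = 1 := by
        have : Nat.gcd p 0 = 1 := hpq
        rwa [Nat.gcd_zero_right] at this
      subst hp1
      refine hNB k a b ha hb hab 1 le_rfl (by norm_num) f g hbad hs hs' ?_
      refine ⟨fun m hm => ?_, _, hupp.1, by simp⟩
      have := hupp.2 m hm
      rcases this with h | h
      · push_cast at h ⊢; linarith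
      · push_cast at h ⊢; linarith [h.1]
    · obtain ⟨f', g', hbad', hs1, hs2, hlow', hupp'⟩ :=
        hST3 k f g a b p q ha hb hab hp h hbad hs hs' hupp
      obtain ⟨f2, g2, hbad2, hs3, hs4, hupp2⟩ :=
        hPSC k f' g' a b p q ha hb hab hq h hbad' hs1 hs2 hlow' hupp'
      exact hi q p f2 g2 hq h hpq.symm hbad2 hs3 hs4 hupp2

end Pool.Agent.W443.J6
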