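import Mathlib
import Pool.Agent.W443.J6.Asm
import Pool.Agent.W443.J6.T3
import Pool.Agent.W74.J6.E1P
import Pool.Agent.W688.J6.St23
import Pool.Agent.W577.J6.Psc

set_option autoImplicit false

open MvPolynomial Pool.Agent.H938R2.JC Pool.Agent.W443.J5

namespace Pool.Agent.W443.J6

universe u

theorem noprim' (k : Type u) [Field k] [IsAlgClosed k] [CharZero k] (a b : ℕ) (ha : 2 ≤ a)
    (hb : 2 ≤ b)
    (hab : Nat.Coprime a b) (p q : ℕ) (hp : 1 ≤ p) (hpq : Nat.Coprime p q)
    (f g : MvPolynomial (Fin 2) k) (hbad : Bad f g) (hs : Sim a b f g) (hs' : Sim b a g f)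
    (hupp : Upp 1 0 (a * p) (a * q) f) : False := by
  refine noprim ?_ Asm.ed (Pool.Agent.W688.J6.st2 Asm.sim Asm.dh_ Pool.Agent.W74.J6.t_E1P)
    (Pool.Agent.W688.J6.st3 Asm.sim Asm.dh_ Pool.Agent.W319.J6.t_E1)
    (Pool.Agent.W577.J6.psc Asm.sim Asm.dh_ Pool.Agent.W67.J6.cl1 Pool.Agent.W67.J6.cl2
      Pool.Agent.W605.J6.cl3 Pool.Agent.W605.J6.cl4 (Pool.Agent.W410.J6.PSA.main Asm.sim))
    k a b ha hb hab p q hp hpq f g hbad hs hs' hupp
  intro k _ _ _ a b ha hb hab m hm hm3 f g hbad hs hs' ht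
  exact Asm.nb k a b ha hb hab m hm hm3 f g hbad hs hs' ht

theorem degreeOf_of_upp {k : Type u} [Field k] {f : MvPolynomial (Fin 2) k} {B C : ℕ}
    (h : Upp 1 0 B C f) : degreeOf 0 f = B := by
  apply le_antisymm
  · rw [degreeOf_le_iff]
    intro m hm
    have := h.2 m (mem_support_iff.1 hm)
    zify
    rcases this with h1 | h1
    · linarith
    · linarith [h1.1]
  · have := monomial_le_degreeOf 0 (mem_support_iff.2 h.1)
    simpa using this

theorem upp_unique {k : Type u} [Field k] {f : MvPolynomial (Fin 2) k} {B C B' C' : ℕ}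
    (h : Upp 1 0 B C f) (h' : Upp 1 0 B' C' f) : B = B' ∧ C = C' := by
  have h1 := h.2 _ h'.1
  have h2 := h'.2 _ h.1
  simp only [e_zero, e_one] at h1 h2
  constructor
  · zify; omega
  · zify; omega

/-- A component with a primitive leading exponent. -/
theorem prim1 (k : Type u) [Field k] [IsAlgClosed k] [CharZero k] (f : MvPolynomial (Fin 2) k)
    (B C : ℕ) (hBC : Nat.Coprime B C) (hU : Upp 1 0 B C f) :
    ∀ (n : ℕ) (g : MvPolynomial (Fin 2) k), degreeOf 0 g ≤ n → Bad f g → False := by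
  intro n
  induction n with
  | zero =>
    intro g hg hbad
    have := Pool.Agent.W216.J6.Bad.two (Pool.Agent.W216.J6.Bad.symm hbad)
    omega
  | succ n ih =>
    intro g hg hbad
    have hf2 := Pool.Agent.W216.J6.Bad.two hbad
    have hg2 := Pool.Agent.W216.J6.Bad.two (Pool.Agent.W216.J6.Bad.symm hbad)
    by_cases h1 : degreeOf 0 f ∣ degreeOf 0 g
    · obtain ⟨g', hg', hlt⟩ := Pool.Agent.W216.J6.reduce Pool.Agent.W215.J5.p1 hbad h1
      exact ih g' (by omega) hg'
    · obtain ⟨a, ha⟩ := Nat.gcd_dvd_left (degreeOf 0 f) (degreeOf 0 g)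
      obtain ⟨b, hb⟩ := Nat.gcd_dvd_right (degreeOf 0 f) (degreeOf 0 g)
      have hm : 0 < Nat.gcd (degreeOf 0 f) (degreeOf 0 g) := Nat.gcd_pos_of_pos_left _ (by omega)
      have hab : Nat.Coprime a b := by
        have h3 := Nat.coprime_div_gcd_div_gcd hm
        have ha' : degreeOf 0 f / Nat.gcd (degreeOf 0 f) (degreeOf 0 g) = a :=
          Nat.div_eq_of_eq_mul_right hm ha
        have hb' : degreeOf 0 g / Nat.gcd (degreeOf 0 f) (degreeOf 0 g) = b :=
          Nat.div_eq_of_eq_mul_right hm hb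
        rw [ha', hb'] at h3
        exact h3
      have ha2 : 2 ≤ a := by
        rcases a with _ | _ | a
        · rw [mul_zero] at ha; omega
        · exfalso
          apply h1
          rw [zero_add, mul_one] at ha
          conv_lhs => rw [ha]
          exact Nat.gcd_dvd_right _ _
        · omega
      have hb1 : 1 ≤ b := by
        rcases b with _ | b
        · rw [mul_zero] at hb; omega
        · omega
      have ht1 : Top 1 0 (a * (Nat.gcd (degreeOf 0 f) (degreeOf 0 g) : ℕ)) f := by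
        apply Pool.Agent.W216.J6.top_deg (Pool.Agent.W216.J6.Bad.ne hbad)
        conv_rhs => rw [ha]
        push_cast; ring
      have ht2 : Top 1 0 (b * (Nat.gcd (degreeOf 0 f) (degreeOf 0 g) : ℕ)) g := by
        apply Pool.Agent.W216.J6.top_deg (Pool.Agent.W216.J6.Bad.ne
          (Pool.Agent.W216.J6.Bad.symm hbad))
        conv_rhs => rw [hb]
        push_cast; ring
      obtain ⟨hs, -⟩ := Asm.sim k f g hbad a b (by omega) hb1 hab 1 0 _ (Or.inl one_pos) ht1 ht2
      obtain ⟨p', q', hp', hq', -⟩ := hs.2.2 1 0 one_pos B C hU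
      have h5 : a ∣ Nat.gcd B C := Nat.dvd_gcd ⟨p', hp'⟩ ⟨q', hq'⟩
      have h6 : Nat.gcd B C = 1 := hBC
      rw [h6] at h5
      have := Nat.le_of_dvd one_pos h5
      omega

/-- Leading exponents without a common divisor. -/
theorem copl (k : Type u) [Field k] [IsAlgClosed k] [CharZero k] (f g : MvPolynomial (Fin 2) k)
    (B C B' C' : ℕ) (hgcd : Nat.gcd (Nat.gcd B C) (Nat.gcd B' C') = 1) (hU : Upp 1 0 B C f)
    (hU' : Upp 1 0 B' C' g) (hbad : Bad f g) : False := by
  have hf2 := Pool.Agent.W216.J6.Bad.two hbad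
  have hg2 := Pool.Agent.W216.J6.Bad.two (Pool.Agent.W216.J6.Bad.symm hbad)
  have hdf := degreeOf_of_upp hU
  have hdg := degreeOf_of_upp hU'
  obtain ⟨a, ha⟩ := Nat.gcd_dvd_left (degreeOf 0 f) (degreeOf 0 g)
  obtain ⟨b, hb⟩ := Nat.gcd_dvd_right (degreeOf 0 f) (degreeOf 0 g)
  have hm : 0 < Nat.gcd (degreeOf 0 f) (degreeOf 0 g) := Nat.gcd_pos_of_pos_left _ (by omega)
  have hab : Nat.Coprime a b := by
    have h3 := Nat.coprime_div_gcd_div_gcd hm
    have ha' : degreeOf 0 f / Nat.gcd (degreeOf 0 f) (degreeOf 0 g) = a :=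
      Nat.div_eq_of_eq_mul_right hm ha
    have hb' : degreeOf 0 g / Nat.gcd (degreeOf 0 f) (degreeOf 0 g) = b :=
      Nat.div_eq_of_eq_mul_right hm hb
    rw [ha', hb'] at h3
    exact h3
  have ha1 : 1 ≤ a := by
    rcases a with _ | a
    · rw [mul_zero] at ha; omega
    · omega
  have hb1 : 1 ≤ b := by
    rcases b with _ | b
    · rw [mul_zero] at hb; omega
    · omega
  have ht1 : Top 1 0 (a * (Nat.gcd (degreeOf 0 f) (degreeOf 0 g) : ℕ)) f := by
    apply Pool.Agent.W216.J6.top_deg (Pool.Agent.W216.J6.Bad.ne hbad)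
    conv_rhs => rw [ha]
    push_cast; ring
  have ht2 : Top 1 0 (b * (Nat.gcd (degreeOf 0 f) (degreeOf 0 g) : ℕ)) g := by
    apply Pool.Agent.W216.J6.top_deg (Pool.Agent.W216.J6.Bad.ne
      (Pool.Agent.W216.J6.Bad.symm hbad))
    conv_rhs => rw [hb]
    push_cast; ring
  obtain ⟨hs, hs'⟩ := Asm.sim k f g hbad a b ha1 hb1 hab 1 0 _ (Or.inl one_pos) ht1 ht2
  obtain ⟨p', q', hp', hq', hUg⟩ := hs.2.2 1 0 one_pos B C hU
  obtain ⟨hB', hC'⟩ := upp_unique hU' hUg
  have hpq : Nat.Coprime p' q' := by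
    have h1 : Nat.gcd p' q' ∣ Nat.gcd (Nat.gcd B C) (Nat.gcd B' C') := by
      rw [hp', hq', hB', hC']
      apply Nat.dvd_gcd <;> apply Nat.dvd_gcd
      · exact (Nat.gcd_dvd_left _ _).mul_left _
      · exact (Nat.gcd_dvd_right _ _).mul_left _
      · exact (Nat.gcd_dvd_left _ _).mul_left _
      · exact (Nat.gcd_dvd_right _ _).mul_left _
    rw [hgcd] at h1
    exact Nat.dvd_one.1 h1
  rcases Nat.lt_or_ge a 2 with h | h
  · have : a = 1 := by omega
    subst this
    rw [one_mul] at hp' hq'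
    subst hp' hq'
    exact prim1 k f B C hpq hU _ g le_rfl hbad
  rcases Nat.lt_or_ge b 2 with h2 | h2
  · have : b = 1 := by omega
    subst this
    rw [one_mul] at hB' hC'
    subst hB' hC'
    exact prim1 k g B' C' hpq hU' _ f le_rfl (Pool.Agent.W216.J6.Bad.symm hbad)
  have hp1 : 1 ≤ p' := by
    rcases Nat.eq_zero_or_pos p' with h3 | h3
    · rw [h3, mul_zero] at hp'; omega
    · exact h3
  rw [hp', hq'] at hU
  exact noprim' k a b h h2 hab p' q' hp1 hpq f g hbad hs hs' hU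

/-- The general case. -/
theorem copl' (k : Type u) [Field k] [CharZero k] (f g : MvPolynomial (Fin 2) k) (c : k)
    (hc : c ≠ 0) (hJ : J f g = C c)
    (B C B' C' : ℕ) (hgcd : Nat.gcd (Nat.gcd B C) (Nat.gcd B' C') = 1) (hU : Upp 1 0 B C f)
    (hU' : Upp 1 0 B' C' g) : Good f g := by
  apply Pool.Agent.H928R2.Three.good_descent
  have hinj : Function.Injective (algebraMap k (AlgebraicClosure k)) :=
    (algebraMap k (AlgebraicClosure k)).injective
  have e1 : ∀ P : MvPolynomial (Fin 2) k, Pool.Agent.H922R2.mE k (AlgebraicClosure k) (Fin 2) P =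
      MvPolynomial.map (algebraMap k (AlgebraicClosure k)) P := by
    intro P
    rfl
  have hup : ∀ (P : MvPolynomial (Fin 2) k) (B C : ℕ), Upp 1 0 B C P →
      Upp 1 0 B C (MvPolynomial.map (algebraMap k (AlgebraicClosure k)) P) := by
    intro P B C h
    refine ⟨?_, fun m hm => ?_⟩
    · rw [coeff_map]; exact (map_ne_zero _).2 h.1
    · rw [coeff_map] at hm
      exact h.2 m ((map_ne_zero _).1 hm)
  rw [e1, e1]
  by_contra hG
  refine copl (AlgebraicClosure k) _ _ B C B' C' hgcd (hup f B C hU) (hup g B' C' hU')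
    ⟨⟨algebraMap k (AlgebraicClosure k) c, (map_ne_zero _).2 hc, ?_⟩, hG⟩
  have : J (MvPolynomial.map (algebraMap k (AlgebraicClosure k)) f)
      (MvPolynomial.map (algebraMap k (AlgebraicClosure k)) g) =
      MvPolynomial.map (algebraMap k (AlgebraicClosure k)) (J f g) := by
    unfold J
    simp only [map_sub, map_mul, pderiv_map]
  rw [this, hJ, map_C]

end Pool.Agent.W443.J6
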