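import Mathlib
import Pool.Agent.W443.J6.T4
import Pool.Agent.W290.J6.NG
import Pool.Agent.W924.J6.TR

set_option autoImplicit false

open MvPolynomial Pool.Agent.H938R2.JC Pool.Agent.W443.J5

namespace Pool.Agent.W443.J6

theorem trap (a b m n : ℕ) (hm : 0 < m) (hmn : m < n) (ham : a ∣ m) (han : a ∣ n)
    (hab : Nat.gcd a b = 1) (ha : 2 ≤ a) (hlt : a < b)
    (hcase : Nat.gcd m n = a ∨ m ≤ 3 * a) (F G : MvPolynomial (Fin 2) ℂ)
    (h1 : convexHull ℝ (insert ((0:ℝ), (0:ℝ))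
        ((fun d : Fin 2 →₀ ℕ => ((d 0 : ℝ), (d 1 : ℝ))) '' (↑F.support : Set (Fin 2 →₀ ℕ))))
        = {p : ℝ × ℝ | 0 ≤ p.2 ∧ p.2 ≤ (n : ℝ) ∧ 0 ≤ p.1 ∧ p.1 ≤ (m : ℝ) + (n : ℝ) - p.2})
    (h2 : convexHull ℝ (insert ((0:ℝ), (0:ℝ))
        ((fun d : Fin 2 →₀ ℕ => ((d 0 : ℝ), (d 1 : ℝ))) ''
          (↑(F - X 0 ^ m * X 1 ^ n).support : Set (Fin 2 →₀ ℕ))))
        ⊂ convexHull ℝ (insert ((0:ℝ), (0:ℝ))
        ((fun d : Fin 2 →₀ ℕ => ((d 0 : ℝ), (d 1 : ℝ))) '' (↑F.support : Set (Fin 2 →₀ ℕ)))))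
    (h3 : ∀ i : ℕ, i ≤ n →
        ((X 0 + X 1 : MvPolynomial (Fin 2) ℂ) ^ (n - i)) ∣
          homogeneousComponent (m + n - i) F)
    (h4 : convexHull ℝ (insert ((0:ℝ), (0:ℝ))
        ((fun d : Fin 2 →₀ ℕ => ((d 0 : ℝ), (d 1 : ℝ))) '' (↑G.support : Set (Fin 2 →₀ ℕ))))
        = {p : ℝ × ℝ | 0 ≤ p.2 ∧ p.2 ≤ ((b * n / a : ℕ) : ℝ) ∧ 0 ≤ p.1 ∧
            p.1 ≤ ((b * m / a : ℕ) : ℝ) + ((b * n / a : ℕ) : ℝ) - p.2})
    (hJ : ∃ c : ℂ, pderiv 0 F * pderiv 1 G - pderiv 1 F * pderiv 0 G = C c) :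
    pderiv 0 F * pderiv 1 G - pderiv 1 F * pderiv 0 G = 0 := by
  obtain ⟨c, hc⟩ := hJ
  by_contra hne
  have hc0 : c ≠ 0 := by
    rintro rfl
    apply hne
    rw [hc, C_0]
  obtain ⟨t1, t2, t3⟩ := Pool.Agent.W924.J6.main a b m n hm hmn ham han hab ha hlt F G h1 h2 h3 h4
  obtain ⟨p, rfl⟩ := ham
  obtain ⟨q, rfl⟩ := han
  have hp : 1 ≤ p := by
    rcases Nat.eq_zero_or_pos p with h | h
    · rw [h, mul_zero] at hm; omega
    · exact h
  set f := (aeval ![X 0 - 1, X 1 + 1 - X 0] F : MvPolynomial (Fin 2) ℂ) with hf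
  set g := (aeval ![X 0 - 1, X 1 + 1 - X 0] G : MvPolynomial (Fin 2) ℂ) with hg
  have hJF : J F G = C c := by
    rw [← hc]; unfold J; ring
  have hJfg : J f g = C c := by
    rw [hf, hg, J_aeval, hJF]
    have h5 : J ((![X 0 - 1, X 1 + 1 - X 0] : Fin 2 → MvPolynomial (Fin 2) ℂ) 0)
        ((![X 0 - 1, X 1 + 1 - X 0] : Fin 2 → MvPolynomial (Fin 2) ℂ) 1) = 1 := by
      simp only [Matrix.cons_val_zero, Matrix.cons_val_one]
      unfold J
      simp only [map_sub, map_add, Derivation.map_one_eq_zero, pderiv_X_self,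
        pderiv_X_of_ne (show (1 : Fin 2) ≠ 0 by decide),
        pderiv_X_of_ne (show (0 : Fin 2) ≠ 1 by decide)]
      ring
    rw [h5, mul_one]
    simp
  have e1 : b * (a * p) / a = b * p := by
    rw [show b * (a * p) = a * (b * p) by ring, Nat.mul_div_cancel_left _ (by omega)]
  have e2 : b * (a * q) / a = b * q := by
    rw [show b * (a * q) = a * (b * q) by ring, Nat.mul_div_cancel_left _ (by omega)]
  rw [e1, e2] at t2
  have t1' : Top 1 1 ((a : ℤ) * ((p + q : ℕ) : ℤ)) f := by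
    have : ((a * p : ℕ) : ℤ) + ((a * q : ℕ) : ℤ) = (a : ℤ) * ((p + q : ℕ) : ℤ) := by
      push_cast; ring
    rw [← this]; exact t1
  have t2' : Top 1 1 ((b : ℤ) * ((p + q : ℕ) : ℤ)) g := by
    have : ((b * p + b * q : ℕ) : ℤ) = (b : ℤ) * ((p + q : ℕ) : ℤ) := by
      push_cast; ring
    rw [← this]; exact t2
  have hbad : Bad f g := ⟨⟨c, hc0, hJfg⟩,
    Pool.Agent.W290.J6.t_NG ℂ f g a b (p + q) c ha (by omega) hab (by omega) hc0 hJfg t1' t2'⟩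
  obtain ⟨hs, hs'⟩ := Asm.sim ℂ f g hbad a b (by omega) (by omega) hab 1 1 _ (Or.inl one_pos)
    t1' t2'
  rcases hcase with hcase | hcase
  · have hpq : Nat.Coprime p q := by
      rw [Nat.gcd_mul_left] at hcase
      have : a * Nat.gcd p q = a * 1 := by rw [hcase, mul_one]
      exact Nat.eq_of_mul_eq_mul_left (by omega) this
    exact noprim' ℂ a b ha (by omega) hab p q hp hpq f g hbad hs hs' t3
  · have hp3 : p ≤ 3 := by
      by_contra h5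
      have h6 : a * 4 ≤ a * p := Nat.mul_le_mul le_rfl (by omega)
      omega
    refine Asm.nb ℂ a b ha (by omega) hab p hp hp3 f g hbad hs hs' ?_
    refine ⟨fun m hm => ?_, _, t3.1, by simp⟩
    have := t3.2 m hm
    rcases this with h | h
    · push_cast at h ⊢; linarith
    · push_cast at h ⊢; linarith [h.1]

end Pool.Agent.W443.J6
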